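import Pool.Agent.helper61.EX.Strip

set_option autoImplicit false

/-!
# The strip with big points

`StripR d M' R WR WE`: non-speciality in degree `d` is known for all systems `ms + R`, `ms` with
multiplicities at most `M'`, of virtual dimension at least `WR` or at most `-WE`.
`place`: the big points are placed first (torus process of `helper89.Segre`).
`stripR_away`: the strip for big points with `∑_{m_j ≥ ν} C(m_j+1,2) + 2 ν (ν-1) < C(d+2,2)`.
`exact_of_stripR`: the strip collapses.
-/

namespace Pool.Agent.helper1.EX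

open Pool.Agent.helper89.Segre Pool.Agent.SH9 Pool.Agent.helper61.EX

/-- non-speciality is known outside a strip, for the systems containing the points `R` -/
structure StripR (d M' : ℕ) (R : Multiset ℕ) (WR WE : ℕ) : Prop where
  reg : ∀ ms : Multiset ℕ, (∀ x ∈ ms, x ≤ M') → cd ms + cd R + WR ≤ (tri d).card →
    Good ℂ (tri d) (ms + R) (cd ms + cd R)
  emp : ∀ ms : Multiset ℕ, (∀ x ∈ ms, x ≤ M') → (tri d).card + WE ≤ cd ms + cd R → E d (ms + R)

/-- the big points are placed first -/
theorem place {d M' N' r' : ℕ} {ms : Multiset ℕ} (hM' : 1 ≤ M')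
    (hms : ∀ y : ℕ → ℕ, Inv d M' y → (box (d + 1) y).card = N' → Good ℂ (box (d + 1) y) ms r') :
    ∀ (s : ℕ) (M : ℕ) (y : ℕ → ℕ) (R : Multiset ℕ), Multiset.card R = s → M' ≤ M → Inv d M y →
      (∀ x ∈ R, M' ≤ x ∧ x ≤ M) →
      (∀ ν ∈ R, Sge R ν + 2 * ν * (ν - 1) < (box (d + 1) y).card) →
      (box (d + 1) y).card = N' + cd R → Good ℂ (box (d + 1) y) (R + ms) (cd R + r') := by
  classical
  intro s
  induction s with
  | zero =>
    intro M y R hs hMM hinv _ _ hN
    have : R = 0 := Multiset.card_eq_zero.mp hs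
    subst this
    rw [cd_zero, add_zero] at hN
    rw [cd_zero, zero_add, zero_add]
    exact hms y (hinv.mono hMM) hN
  | succ s ih =>
    intro M y R hs hMM hinv hR hcond hN
    obtain ⟨μ, hμR, hμmax⟩ : ∃ μ ∈ R, ∀ m ∈ R, m ≤ μ := by
      have hne : R.toFinset.Nonempty := by
        rw [Finset.nonempty_iff_ne_empty]
        intro h
        rw [Multiset.toFinset_eq_empty] at h
        subst h
        simp at hs
      refine ⟨R.toFinset.max' hne, Multiset.mem_toFinset.mp (Finset.max'_mem _ _), ?_⟩
      intro m hm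
      exact Finset.le_max' _ _ (Multiset.mem_toFinset.mpr hm)
    obtain ⟨R', rfl⟩ := Multiset.exists_cons_of_mem hμR
    have hR'μ : ∀ m ∈ R', m ≤ μ := fun m hm => hμmax m (Multiset.mem_cons_of_mem hm)
    obtain ⟨hμM', hμM⟩ := hR μ (Multiset.mem_cons_self _ _)
    have hcμ := hcond μ (Multiset.mem_cons_self _ _)
    have hDpos : 0 < (box (d + 1) y).card := by omega
    have hne : ∃ b, 0 < y b := by
      obtain ⟨e, he⟩ := Finset.card_pos.mp hDpos
      rw [mem_box] at he
      exact ⟨e.2, by omega⟩
    obtain ⟨j0, p, hj0p, hpd, hlow, hpos, hwhole, hp⟩ := hinv.exists_pivot hμM hne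
    rw [Multiset.card_cons] at hs
    by_cases hmove : μ ≤ y p ∧ 2 * μ ≤ d + 1 - p
    · obtain ⟨c, r, hslice, hinv'⟩ := hinv.move (by omega) hμM hj0p hlow hpos hwhole hmove.1 hmove.2
      have hcard : (box (d + 1) y).card = (box (d + 1) (fun b => y b - c b)).card + kk μ := by
        rw [card_box, card_box, kk, ← hslice.sum, ← Finset.sum_add_distrib]
        apply Finset.sum_congr rfl
        intro b hb
        have := hslice.le b (Finset.mem_range.mp hb)
        omega
      rw [cd_cons] at hN
      have h1 := ih μ (fun b => y b - c b) R' (by omega) hμM' hinv'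
        (fun x hx => ⟨(hR x (Multiset.mem_cons_of_mem hx)).1, hR'μ x hx⟩) (by
        intro ν hν
        have h3 := hcond ν (Multiset.mem_cons_of_mem hν)
        rw [Sge_cons_of_le (hR'μ ν hν)] at h3
        omega) (by omega)
      have h2 := hslice.good h1
      rw [← Multiset.cons_add] at h2
      have h3 : (μ + 1).choose 2 + (cd R' + r') = cd (μ ::ₘ R') + r' := by
        rw [cd_cons, kk]
        ring
      rwa [h3] at h2
    · exfalso
      have hshort : d + 1 - p < 2 * μ := by
        rcases hp with hp | hp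
        · by_contra hcon
          exact hmove ⟨hp, by omega⟩
        · omega
      have hstuck := stuck_bound hinv.bd hj0p hpd hlow hwhole hshort
      have hc1 := two_mul_choose_two μ
      have hc2 := two_mul_choose_two (2 * μ)
      have hkμ := two_mul_kk μ
      have h2μ : 2 * μ * (μ - 1) + 2 * μ = 2 * μ * μ := by
        obtain ⟨t, rfl⟩ := Nat.exists_eq_add_of_le' (show 1 ≤ μ by omega)
        simp only [Nat.add_sub_cancel]; ring
      have hq : (2 * μ) * (2 * μ) = 4 * (μ * μ) := by ring
      have hq2 : 2 * μ * μ = 2 * (μ * μ) := by ring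
      rw [Sge_cons_of_le le_rfl] at hcμ
      omega

lemma Sge_le (L : Multiset ℕ) (ν : ℕ) : Sge L ν ≤ cd L := by
  induction L using Multiset.induction_on with
  | empty => simp [Sge, cd]
  | cons m L ih =>
    rw [cd_cons]
    rcases Nat.lt_or_ge m ν with h | h
    · rw [Sge_cons_of_gt h]; omega
    · rw [Sge_cons_of_le h]; omega

/-- the regular half in a box -/
theorem reg_box {d M' : ℕ} {y : ℕ → ℕ} (hinv : Inv d M' y) {ms : Multiset ℕ}
    (hms : ∀ x ∈ ms, x ≤ M') (h : cd ms + (2 * M' * (M' - 1) + 1) ≤ (box (d + 1) y).card) :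
    Good ℂ (box (d + 1) y) ms (cd ms) := by
  have h1 := good_main (K := ℂ) d _ M' y ms le_rfl hinv hms (by
    intro ν hν _
    right
    have h2 := Sge_le ms ν
    have h3 : 2 * ν * (ν - 1) ≤ 2 * M' * (M' - 1) :=
      Nat.mul_le_mul (Nat.mul_le_mul_left _ (hms ν hν)) (Nat.sub_le_sub_right (hms ν hν) 1)
    omega)
  have h2 : min (ms.map kk).sum (box (d + 1) y).card = cd ms := by
    show min (cd ms) _ = _
    omega
  rwa [h2] at h1

/-- the `n` largest elements -/
lemma pick (n : ℕ) : ∀ (L : Multiset ℕ), n ≤ Multiset.card L →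
    ∃ S L' : Multiset ℕ, L = S + L' ∧ Multiset.card S = n ∧ (∀ a ∈ S, ∀ x ∈ L', x ≤ a) := by
  classical
  induction n with
  | zero =>
    intro L _
    exact ⟨0, L, by simp, by simp, by simp⟩
  | succ n ih =>
    intro L hn
    have hne : L.toFinset.Nonempty := by
      rw [Finset.nonempty_iff_ne_empty]; intro h
      rw [Multiset.toFinset_eq_empty] at h
      subst h; simp at hn
    obtain ⟨μ, hμL, hμmax⟩ : ∃ μ ∈ L, ∀ m ∈ L, m ≤ μ :=
      ⟨L.toFinset.max' hne, Multiset.mem_toFinset.mp (Finset.max'_mem _ _), fun m hm =>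
        Finset.le_max' _ _ (Multiset.mem_toFinset.mpr hm)⟩
    obtain ⟨L1, hL1⟩ := Multiset.exists_cons_of_mem hμL
    obtain ⟨S, L', h1, h2, h3⟩ := ih L1 (by rw [hL1, Multiset.card_cons] at hn; omega)
    refine ⟨μ ::ₘ S, L', by rw [hL1, h1, Multiset.cons_add], by rw [Multiset.card_cons, h2], ?_⟩
    intro a ha x hx
    rcases Multiset.mem_cons.mp ha with rfl | ha
    · exact hμmax x (by
        rw [hL1, h1]
        exact Multiset.mem_cons_of_mem (Multiset.mem_add.mpr (Or.inr hx)))
    · exact h3 a ha x hx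

lemma cd_le_card {M' : ℕ} {ms : Multiset ℕ} (h : ∀ x ∈ ms, x ≤ M') :
    cd ms ≤ Multiset.card ms * kk M' := by
  have := Multiset.sum_le_card_nsmul (ms.map kk) (kk M') (by
    intro x hx
    obtain ⟨a, ha, rfl⟩ := Multiset.mem_map.mp hx
    exact kk_mono (h a ha))
  rwa [Multiset.card_map, smul_eq_mul] at this

/-- the empty half in a box -/
theorem emp_box {d M' : ℕ} (hM' : 1 ≤ M') {y : ℕ → ℕ} (hinv : Inv d M' y) {ms : Multiset ℕ}
    (hms : ∀ x ∈ ms, x ≤ M') (h : (box (d + 1) y).card + 5 * kk M' ≤ cd ms) :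
    Good ℂ (box (d + 1) y) ms (box (d + 1) y).card := by
  have hk : 1 ≤ kk M' := by
    have := two_mul_kk M'
    nlinarith
  have hc := cd_le_card hms
  have h5 : 5 ≤ Multiset.card ms := by
    by_contra hcon
    push Not at hcon
    have : Multiset.card ms * kk M' ≤ 4 * kk M' := Nat.mul_le_mul_right _ (by omega)
    omega
  obtain ⟨S, L', hSL, hS5, hSx⟩ := pick 5 ms h5
  have hSM : ∀ x ∈ S, x ≤ M' := fun x hx => hms x (by
    rw [hSL]; exact Multiset.mem_add.mpr (Or.inl hx))
  have hSsum := cd_le_card hSM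
  rw [hS5] at hSsum
  have hsum : cd ms = cd S + cd L' := by rw [hSL, cd_add]
  have hcons : ∀ {n : ℕ} {S : Multiset ℕ}, Multiset.card S = n + 1 →
      ∃ a S', S = a ::ₘ S' ∧ Multiset.card S' = n := fun h => exists_cons h
  obtain ⟨a1, S1, rfl, hS4⟩ := hcons hS5
  obtain ⟨a2, S2, rfl, hS3⟩ := hcons hS4
  obtain ⟨a3, S3, rfl, hS2⟩ := hcons hS3
  obtain ⟨a4, S4, rfl, hS1⟩ := hcons hS2
  obtain ⟨a5, rfl⟩ := Multiset.card_eq_one.mp hS1
  have := good_empty (K := ℂ) d a1 a2 a3 a4 a5 _ M' y L' le_rfl hinv (by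
      intro x hx
      exact hms x (by rw [hSL]; exact Multiset.mem_add.mpr (Or.inr hx)))
    (by
      intro x hx
      refine ⟨hSx a1 (by simp) x hx, hSx a2 (by simp) x hx, hSx a3 (by simp) x hx,
        hSx a4 (by simp) x hx, hSx a5 (by simp) x hx⟩)
    (by
      change _ ≤ cd L'
      omega)
  rw [hSL]
  exact this

/-- the condition for the big points gives `cd R ≤ card` -/
lemma cd_lt_of_cond {N : ℕ} (hN : 0 < N) {R : Multiset ℕ}
    (h : ∀ ν ∈ R, Sge R ν + 2 * ν * (ν - 1) < N) : cd R < N := by
  classical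
  by_cases hR : R = 0
  · subst hR; rw [cd_zero]; exact hN
  · have hne : R.toFinset.Nonempty := by
      rw [Finset.nonempty_iff_ne_empty]; intro h
      exact hR (Multiset.toFinset_eq_empty.mp h)
    obtain ⟨μ, hμR, hμmin⟩ : ∃ μ ∈ R, ∀ m ∈ R, μ ≤ m :=
      ⟨R.toFinset.min' hne, Multiset.mem_toFinset.mp (Finset.min'_mem _ _), fun m hm =>
        Finset.min'_le _ _ (Multiset.mem_toFinset.mpr hm)⟩
    have h1 := h μ hμR
    have h2 : Sge R μ = cd R := by
      unfold Sge cd
      rw [Multiset.filter_eq_self.mpr hμmin]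
    omega

/-- **The strip with big points.** -/
theorem stripR_away (d M' : ℕ) (hM' : 1 ≤ M') (R : Multiset ℕ) (hR : ∀ x ∈ R, M' ≤ x)
    (hcond : ∀ ν ∈ R, Sge R ν + 2 * ν * (ν - 1) < (tri d).card) :
    StripR d M' R (2 * M' * (M' - 1) + 1) (5 * kk M') := by
  have hpos : 0 < (tri d).card := by
    rw [card_tri]
    exact Nat.choose_pos (by omega)
  have hcd := cd_lt_of_cond hpos hcond
  obtain ⟨N', hN'⟩ := Nat.exists_eq_add_of_le hcd.le
  have hRM : ∀ x ∈ R, M' ≤ x ∧ x ≤ R.sum + M' := fun x hx =>
    ⟨hR x hx, (Multiset.single_le_sum (fun _ _ => Nat.zero_le _) x hx).trans (Nat.le_add_right _ _)⟩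
  constructor
  · intro ms hms h
    have h1 := place (N' := N') (r' := cd ms) (ms := ms) hM' (fun y hinv hy =>
      reg_box hinv hms (by omega)) _ (R.sum + M') (fun b => d + 1 - b) R rfl (by omega)
      (Inv.init d _) hRM hcond (by
        change (tri d).card = _
        omega)
    rw [add_comm ms, add_comm (cd ms)]
    exact h1
  · intro ms hms h
    have h1 := place (N' := N') (r' := N') (ms := ms) hM' (fun y hinv hy => by
      have := emp_box hM' hinv hms (by omega)
      rwa [hy] at this) _ (R.sum + M') (fun b => d + 1 - b) R rfl (by omega)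
      (Inv.init d _) hRM hcond (by
        change (tri d).card = _
        omega)
    rw [add_comm ms]
    show Good ℂ (tri d) (R + ms) (tri d).card
    rw [hN']
    exact h1

/-- in the strip: lower more points until the system is regular -/
theorem midR {d M' WR WE : ℕ} {Rb : Multiset ℕ} (hS : StripR d M' Rb WR WE) (R : Multiset ℕ)
    (hR : ∀ x ∈ R, x ≤ M')
    (A : Multiset Grp) : ∀ B : Multiset Grp, (∀ g ∈ A, g.t + 2 ≤ M') → (∀ g ∈ B, g.t + 2 ≤ M') →
    cd (lo (A + B)) + cd R + cd Rb + WR ≤ (tri d).card →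
    (tri d).card < cd (up A) + cd (lo B) + cd R + cd Rb + WR →
    E d (up A + lo B + R + (Rb + Multiset.replicate (WR + M') 1)) := by
  induction A using Multiset.induction_on with
  | empty =>
    intro B _ _ h1 h2
    rw [zero_add] at h1
    have : cd (up 0) = 0 := by simp [up, cd]
    omega
  | cons g A ih =>
    intro B hA hB h1 h2
    have hg := hA g (Multiset.mem_cons_self _ _)
    have hA' : ∀ x ∈ A, x.t + 2 ≤ M' := fun x hx => hA x (Multiset.mem_cons_of_mem hx)
    have hB' : ∀ x ∈ g ::ₘ B, x.t + 2 ≤ M' := by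
      intro x hx
      rcases Multiset.mem_cons.mp hx with rfl | hx
      · exact hg
      · exact hB x hx
    have key : E d (up A + lo (g ::ₘ B) + R + (Rb + Multiset.replicate (WR + M') 1)) := by
      rcases Nat.lt_or_ge (tri d).card (cd (up A) + cd (lo (g ::ₘ B)) + cd R + cd Rb + WR)
        with h3 | h3
      · apply ih (g ::ₘ B) hA' hB' _ h3
        rw [Multiset.add_cons, ← Multiset.cons_add]
        exact h1
      · have h4 := hS.reg (up A + lo (g ::ₘ B) + R) (by
          intro x hx
          rcases Multiset.mem_add.mp hx with hx | hx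
          · rcases Multiset.mem_add.mp hx with hx | hx
            · obtain ⟨y, hy, rfl⟩ := Multiset.mem_map.mp hx
              exact hA' y hy
            · obtain ⟨y, hy, rfl⟩ := Multiset.mem_map.mp hx
              have := hB' y hy
              omega
          · exact hR x hx) (by rw [cd_add, cd_add]; exact h3)
        rw [← add_assoc]
        refine E_ones_of_good h4 ?_
        rw [cd_add, cd_add]
        rw [up_cons, cd_cons] at h2
        rw [lo_cons, cd_cons]
        have := kk_succ g.t
        omega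
    rw [lo_cons, Multiset.add_cons, Multiset.cons_add, Multiset.cons_add] at key
    rw [up_cons, Multiset.cons_add, Multiset.cons_add, Multiset.cons_add]
    exact key.raise (by omega)

/-- **The strip collapses**, with big points `Rb`. -/
theorem exact_of_stripR {d M' WR WE v κ : ℕ} {Rb : Multiset ℕ} (hS : StripR d M' Rb WR WE)
    (G : Multiset Grp) (R : Multiset ℕ) (hok : ∀ g ∈ G, g.Ok) (hM : ∀ g ∈ G, g.t + 2 ≤ M')
    (hκ : ∀ g ∈ G, g.σ ≤ κ * g.ρ) (hR : ∀ x ∈ R, x ≤ M')
    (hv : (tri d).card ≤ cd (pts G) + cd R + cd Rb + v)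
    (hreg : cd (pts G) + cd R + cd Rb + WR ≤ (tri d).card + sg G)
    (hbig : κ * WE + (κ + 1) * (WR + M') ≤ sg G) :
    E d (pts G + R + Rb + Multiset.replicate v 1) := by
  have e0 : pts G + R + Rb + Multiset.replicate v 1 =
      pts G + (R + (Rb + Multiset.replicate v 1)) := by abel
  rw [e0]
  refine coll_all G _ hok ?_
  intro A B hAB
  have hokA : ∀ g ∈ A, g.Ok := fun g hg => hok g (by rw [← hAB]; exact Multiset.mem_add.mpr (Or.inl hg))
  have hokB : ∀ g ∈ B, g.Ok := fun g hg => hok g (by rw [← hAB]; exact Multiset.mem_add.mpr (Or.inr hg))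
  have hMA : ∀ g ∈ A, g.t + 2 ≤ M' := fun g hg =>
    hM g (by rw [← hAB]; exact Multiset.mem_add.mpr (Or.inl hg))
  have hMB : ∀ g ∈ B, g.t + 2 ≤ M' := fun g hg =>
    hM g (by rw [← hAB]; exact Multiset.mem_add.mpr (Or.inr hg))
  have hκA : sg A ≤ κ * rh A := by
    have : ∀ g ∈ A, g.σ ≤ κ * g.ρ := fun g hg =>
      hκ g (by rw [← hAB]; exact Multiset.mem_add.mpr (Or.inl hg))
    clear hAB hokA hMA
    induction A using Multiset.induction_on with
    | empty => simp [sg]
    | cons g A ih =>
      have h1 := ih (fun x hx => this x (Multiset.mem_cons_of_mem hx))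
      have h2 := this g (Multiset.mem_cons_self _ _)
      rw [sg_cons, rh_cons, mul_add]
      omega
  have hcA := cd_up hokA
  have hcB := cd_lo hokB
  have hpts : cd (pts G) = cd (pts A) + cd (pts B) := by rw [← hAB, pts_add, cd_add]
  have hsg : sg G = sg A + sg B := by rw [← hAB, sg_add]
  have hmem : ∀ x ∈ up A + lo B + R, x ≤ M' := by
    intro x hx
    rcases Multiset.mem_add.mp hx with hx | hx
    · rcases Multiset.mem_add.mp hx with hx | hx
      · obtain ⟨y, hy, rfl⟩ := Multiset.mem_map.mp hx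
        exact hMA y hy
      · obtain ⟨y, hy, rfl⟩ := Multiset.mem_map.mp hx
        have := hMB y hy
        omega
    · exact hR x hx
  have e1 : up A + lo B + (R + (Rb + Multiset.replicate v 1) + Multiset.replicate (sg B) 1) =
      up A + lo B + R + (Rb + Multiset.replicate (v + sg B) 1) := by
    rw [Multiset.replicate_add]
    abel
  rw [e1]
  rcases Nat.lt_or_ge (tri d).card (cd (up A) + cd (lo B) + cd R + cd Rb + WR) with h1 | h1
  · rcases Nat.lt_or_ge (cd (up A) + cd (lo B) + cd R + cd Rb) ((tri d).card + WE) with h2 | h2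
    · -- in the strip
      have h3 : cd (lo (A + B)) + cd R + cd Rb + WR ≤ (tri d).card := by
        have := cd_lo hok
        rw [hAB]
        omega
      have h4 := midR hS R hR A B hMA hMB h3 h1
      have h5 : WR + M' ≤ v + sg B := by
        by_contra hcon
        push Not at hcon
        have h6 : rh A < sg B + v + WE := by omega
        have h7 : κ * rh A ≤ κ * (sg B + v + WE) := Nat.mul_le_mul_left _ h6.le
        have h8 : κ * (sg B + v) ≤ κ * (WR + M') := Nat.mul_le_mul_left _ (by omega)
        have h9 : κ * (sg B + v + WE) = κ * (sg B + v) + κ * WE := by ring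
        have h10 : (κ + 1) * (WR + M') = κ * (WR + M') + (WR + M') := by ring
        omega
      obtain ⟨k, hk⟩ := Nat.exists_eq_add_of_le h5
      rw [hk, Multiset.replicate_add, ← add_assoc Rb, ← add_assoc]
      apply E.add
      exact h4
    · have h3 := hS.emp (up A + lo B + R) hmem (by rw [cd_add, cd_add]; exact h2)
      rw [← add_assoc]
      exact h3.add _
  · have h3 := hS.reg (up A + lo B + R) hmem (by rw [cd_add, cd_add]; exact h1)
    rw [← add_assoc]
    refine E_ones_of_good h3 ?_
    rw [cd_add, cd_add]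
    omega

end Pool.Agent.helper1.EX
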