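import Pool.Agent.helper61.EX.G
import Pool.Agent.helper1.EX.StripR
import Pool.Agent.helper89.Segre.Results

set_option autoImplicit false

/-!
# Theorem GR: many small multiplicities, and big points

If `∑_{m_i ≤ M} m_i ≥ 106 (M+1)²` and every `m_i > 2M+1` satisfies
`∑_{m_j ≥ m_i} C(m_j+1,2) + 2 m_i (m_i - 1) < C(d+2,2)`, then the system is non-special.
-/

namespace Pool.Agent.helper1.EX

open MvPolynomial Pool.Agent.helper89.Segre Pool.Agent.SH9 Pool.Agent.helper61.EX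

/-- **Theorem GR**, from the strip -/
theorem good_of_stripR {d M WR WE : ℕ} {ms R0 Rb : Multiset ℕ}
    (hS : StripR d (2 * M + 1) Rb WR WE) (hM : ∀ x ∈ ms, x ≤ M) (hR0 : ∀ x ∈ R0, x ≤ 2 * M + 1)
    (hs : 8 * (WE + 2 * (WR + (2 * M + 1))) + 3 * (M * (M + 1)) ≤ 2 * ms.sum) :
    Good ℂ (tri d) (ms + R0 + Rb) (min (tri d).card (cd (ms + R0 + Rb))) := by
  obtain ⟨G, R, hG, hR, hpts, hsum⟩ := exists_g4 M ms hM
  have hok : ∀ g ∈ G, g.Ok := by
    intro g hg
    obtain ⟨k, h1, _, rfl⟩ := hG g hg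
    exact g4_ok h1
  have hMM : ∀ g ∈ G, g.t + 2 ≤ 2 * M + 1 := by
    intro g hg
    obtain ⟨k, h1, h2, rfl⟩ := hG g hg
    show 2 * k - 1 + 2 ≤ 2 * M + 1
    omega
  have hκ : ∀ g ∈ G, g.σ ≤ 1 * g.ρ := by
    intro g hg
    obtain ⟨k, h1, h2, rfl⟩ := hG g hg
    show k ≤ 1 * (k + 1)
    omega
  have hRM : ∀ x ∈ R + R0, x ≤ 2 * M + 1 := by
    intro x hx
    rcases Multiset.mem_add.mp hx with hx | hx
    · have := hR x hx; omega
    · exact hR0 x hx
  have hmM : ∀ x ∈ ms + R0, x ≤ 2 * M + 1 := by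
    intro x hx
    rcases Multiset.mem_add.mp hx with hx | hx
    · have := hM x hx; omega
    · exact hR0 x hx
  have hcd : cd (pts G) + cd (R + R0) = cd (ms + R0) := by rw [← cd_add, ← add_assoc, hpts]
  have hcd2 : cd (ms + R0 + Rb) = cd (ms + R0) + cd Rb := cd_add _ _
  have e1 : ∀ v : ℕ, pts G + (R + R0) + Rb + Multiset.replicate v 1 =
      ms + R0 + Rb + Multiset.replicate v 1 := by
    intro v
    rw [← add_assoc (pts G), hpts]
  rcases Nat.lt_or_ge (tri d).card (cd (ms + R0 + Rb)) with h1 | h1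
  · -- more conditions than coefficients
    rw [min_eq_left h1.le]
    rcases Nat.lt_or_ge (cd (ms + R0 + Rb)) ((tri d).card + WE) with h2 | h2
    · have h3 := exact_of_stripR (v := 0) hS G (R + R0) hok hMM hκ hRM (by omega) (by omega)
        (by omega)
      rw [e1, Multiset.replicate_zero, add_zero] at h3
      exact h3
    · exact hS.emp _ hmM (by omega)
  · rw [min_eq_right h1]
    rcases Nat.lt_or_ge (tri d).card (cd (ms + R0 + Rb) + WR) with h2 | h2
    · have h3 := exact_of_stripR (v := (tri d).card - cd (ms + R0 + Rb)) hS G (R + R0) hok hMM hκ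
        hRM (by omega) (by omega) (by omega)
      rw [e1] at h3
      obtain ⟨L, h4, h5, h6⟩ := good_of_E_ones h3
      exact ⟨L, h4, h5, h6.le (by omega)⟩
    · have h3 := hS.reg _ hmM (by omega)
      rw [hcd2]
      exact h3

/-- Theorem GR for multisets -/
theorem goodGR {d M : ℕ} {ms R0 Rb : Multiset ℕ} (hM : ∀ x ∈ ms, x ≤ M)
    (hR0 : ∀ x ∈ R0, x ≤ 2 * M + 1) (hRb : ∀ x ∈ Rb, 2 * M + 1 ≤ x)
    (hcond : ∀ ν ∈ Rb, Sge Rb ν + 2 * ν * (ν - 1) < (tri d).card)
    (hs : 106 * (M + 1) ^ 2 ≤ ms.sum) :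
    Good ℂ (tri d) (ms + R0 + Rb) (min (tri d).card (cd (ms + R0 + Rb))) := by
  refine good_of_stripR (stripR_away d (2 * M + 1) (by omega) Rb hRb hcond) hM hR0 ?_
  have h1 := two_mul_kk (2 * M + 1)
  have h2 : 2 * (2 * M + 1) * (2 * M + 1 - 1) = 8 * (M * M) + 4 * M := by
    rw [Nat.add_sub_cancel]; ring
  have h3 : (2 * M + 1) * (2 * M + 1) + (2 * M + 1) = 4 * (M * M) + 6 * M + 2 := by ring
  have h4 : 106 * (M + 1) ^ 2 = 106 * (M * M) + 212 * M + 106 := by ring
  have h5 : 3 * (M * (M + 1)) = 3 * (M * M) + 3 * M := by ring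
  rw [h2]
  rw [h3] at h1
  rw [h4] at hs
  rw [h5]
  omega

/-- **Theorem GR** -/
theorem mainGR (d h M : ℕ) (m : Fin h → ℕ) (hs : 106 * (M + 1) ^ 2 ≤ ∑ i with m i ≤ M, m i)
    (hb : ∀ i, 2 * M + 1 < m i →
      ∑ j with m i ≤ m j, (m j + 1).choose 2 + 2 * m i * (m i - 1) < (d + 2).choose 2) :
    ∃ Q : MvPolynomial (Fin h × Fin 3) ℂ, Q ≠ 0 ∧ ∀ p : Fin h → Fin 3 → ℂ,
      eval (fun ij : Fin h × Fin 3 => p ij.1 ij.2) Q ≠ 0 →
      Module.finrank ℂ (sys d h m p) = (d + 2).choose 2 - ∑ k, (m k + 1).choose 2 := by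
  classical
  apply generic_of_good
  obtain ⟨L, hL⟩ : ∃ L, L = (Finset.univ.val.map m : Multiset ℕ) := ⟨_, rfl⟩
  have hsplit : L = L.filter (fun x => x ≤ M) +
      (L.filter (fun x => ¬ x ≤ M)).filter (fun x => x ≤ 2 * M + 1) +
      (L.filter (fun x => ¬ x ≤ M)).filter (fun x => ¬ x ≤ 2 * M + 1) := by
    rw [add_assoc, Multiset.filter_add_not, Multiset.filter_add_not]
  have hbig : (L.filter (fun x => ¬ x ≤ M)).filter (fun x => ¬ x ≤ 2 * M + 1) =
      L.filter (fun x => 2 * M + 1 < x) := by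
    rw [Multiset.filter_filter]
    apply Multiset.filter_congr
    intro x _
    omega
  have hcard := card_tri d
  have hg := goodGR (d := d) (M := M) (ms := L.filter (fun x => x ≤ M))
    (R0 := (L.filter (fun x => ¬ x ≤ M)).filter (fun x => x ≤ 2 * M + 1))
    (Rb := L.filter (fun x => 2 * M + 1 < x))
    (fun x hx => (Multiset.mem_filter.mp hx).2) (fun x hx => (Multiset.mem_filter.mp hx).2)
    (fun x hx => (Multiset.mem_filter.mp hx).2.le)
    (by
      intro ν hν
      obtain ⟨hν1, hν2⟩ := Multiset.mem_filter.mp hν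
      rw [hL] at hν1
      obtain ⟨i, _, rfl⟩ := Multiset.mem_map.mp hν1
      have h1 := hb i hν2
      have h2 : Sge (L.filter (fun x => 2 * M + 1 < x)) (m i) = Sge L (m i) := by
        unfold Sge
        rw [Multiset.filter_filter]
        congr 2
        apply Multiset.filter_congr
        intro x _
        omega
      rw [h2, hL, sge_eq, hcard]
      exact h1)
    (by
      refine hs.trans (le_of_eq ?_)
      rw [hL, Multiset.filter_map, Finset.sum]
      rfl)
  rw [← hbig, ← hsplit] at hg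
  have h3 : cd L = ∑ k, (m k + 1).choose 2 := by
    rw [hL]
    exact sumkk_eq m
  rw [h3, hcard, min_comm, hL] at hg
  exact hg

end Pool.Agent.helper1.EX
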