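import Pool.Agent.helper1.EX.GR

set_option autoImplicit false

/-!
# Theorem GR with sharper constants, and its union with `fatTail`
-/

namespace Pool.Agent.helper1.EX

open MvPolynomial Pool.Agent.helper89.Segre Pool.Agent.SH9 Pool.Agent.helper61.EX

/-- Theorem GR for multisets, sharper constants -/
theorem goodGR' {d M : ℕ} {ms R0 Rb : Multiset ℕ} (hM : ∀ x ∈ ms, x ≤ M)
    (hR0 : ∀ x ∈ R0, x ≤ 2 * M + 1) (hRb : ∀ x ∈ Rb, 2 * M + 1 ≤ x)
    (hcond : ∀ ν ∈ Rb, Sge Rb ν + 2 * ν * (ν - 1) < (tri d).card)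
    (hs : 211 * (M * M) + 219 * M + 72 ≤ 2 * ms.sum) :
    Good ℂ (tri d) (ms + R0 + Rb) (min (tri d).card (cd (ms + R0 + Rb))) := by
  refine good_of_stripR (stripR_away d (2 * M + 1) (by omega) Rb hRb hcond) hM hR0 ?_
  have h1 := two_mul_kk (2 * M + 1)
  have h2 : 2 * (2 * M + 1) * (2 * M + 1 - 1) = 8 * (M * M) + 4 * M := by
    rw [Nat.add_sub_cancel]; ring
  have h3 : (2 * M + 1) * (2 * M + 1) + (2 * M + 1) = 4 * (M * M) + 6 * M + 2 := by ring
  have h5 : 3 * (M * (M + 1)) = 3 * (M * M) + 3 * M := by ring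
  rw [h2]
  rw [h3] at h1
  rw [h5]
  omega

/-- Theorem GR, sharper constants -/
theorem mainGR' (d h M : ℕ) (m : Fin h → ℕ)
    (hs : 211 * (M * M) + 219 * M + 72 ≤ 2 * ∑ i with m i ≤ M, m i)
    (hb : ∀ i, 2 * M + 1 < m i →
      ∑ j with m i ≤ m j, (m j + 1).choose 2 + 2 * m i * (m i - 1) < (d + 2).choose 2) :
    ∃ Q : MvPolynomial (Fin h × Fin 3) ℂ, Q ≠ 0 ∧ ∀ p : Fin h → Fin 3 → ℂ,
      eval (fun ij : Fin h × Fin 3 => p ij.1 ij.2) Q ≠ 0 →
      Module.finrank ℂ (sys d h m p) = (d + 2).choose 2 - ∑ k, (m k + 1).choose 2 := by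
  classical
  apply generic_of_good
  obtain ⟨L, hL⟩ : ∃ L, L = (Finset.univ.val.map m : Multiset ℕ) := ⟨_, rfl⟩
  have hsplit : L = L.filter (fun x => x ≤ M) +
      (L.filter (fun x => ¬ x ≤ M)).filter (fun x => x ≤ 2 * M + 1) +
      (L.filter (fun x => ¬ x ≤ M)).filter (fun x => ¬ x ≤ 2 * M + 1) := by
    rw [add_assoc, Multiset.filter_add_not, Multiset.filter_add_not]
  have hbig : (L.filter (fun x => ¬ x ≤ M)).filter (fun x => ¬ x ≤ 2 * M + 1) =
      L.filter (fun x => 2 * M + 1 < x) := by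
    rw [Multiset.filter_filter]
    apply Multiset.filter_congr
    intro x _
    omega
  have hcard := card_tri d
  have hg := goodGR' (d := d) (M := M) (ms := L.filter (fun x => x ≤ M))
    (R0 := (L.filter (fun x => ¬ x ≤ M)).filter (fun x => x ≤ 2 * M + 1))
    (Rb := L.filter (fun x => 2 * M + 1 < x))
    (fun x hx => (Multiset.mem_filter.mp hx).2) (fun x hx => (Multiset.mem_filter.mp hx).2)
    (fun x hx => (Multiset.mem_filter.mp hx).2.le)
    (by
      intro ν hν
      obtain ⟨hν1, hν2⟩ := Multiset.mem_filter.mp hν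
      rw [hL] at hν1
      obtain ⟨i, _, rfl⟩ := Multiset.mem_map.mp hν1
      have h1 := hb i hν2
      have h2 : Sge (L.filter (fun x => 2 * M + 1 < x)) (m i) = Sge L (m i) := by
        unfold Sge
        rw [Multiset.filter_filter]
        congr 2
        apply Multiset.filter_congr
        intro x _
        omega
      rw [h2, hL, sge_eq, hcard]
      exact h1)
    (by
      refine hs.trans (le_of_eq ?_)
      congr 1
      rw [hL, Multiset.filter_map, Finset.sum]
      rfl)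
  rw [← hbig, ← hsplit] at hg
  have h3 : cd L = ∑ k, (m k + 1).choose 2 := by
    rw [hL]
    exact sumkk_eq m
  rw [h3, hcard, min_comm, hL] at hg
  exact hg

/-- all multiplicities at most `M`, `106 (M+1)³ ≤ d²` -/
theorem cubeGR (d h M : ℕ) (m : Fin h → ℕ) (hM : ∀ i, m i ≤ M) (hd : 106 * (M + 1) ^ 3 ≤ d ^ 2) :
    ∃ Q : MvPolynomial (Fin h × Fin 3) ℂ, Q ≠ 0 ∧ ∀ p : Fin h → Fin 3 → ℂ,
      eval (fun ij : Fin h × Fin 3 => p ij.1 ij.2) Q ≠ 0 →
      Module.finrank ℂ (sys d h m p) = (d + 2).choose 2 - ∑ k, (m k + 1).choose 2 := by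
  classical
  rcases Nat.lt_or_ge (∑ k, (m k + 1).choose 2 + 2 * M * (M - 1)) ((d + 2).choose 2) with h1 | h1
  · exact awayFromZero d h M m hM (Or.inl h1)
  · apply mainGR' d h M m
    · have h2 : (Finset.univ.filter fun i => m i ≤ M) = Finset.univ := by
        apply Finset.filter_true_of_mem
        intro i _
        exact hM i
      rw [h2]
      have h3 : 2 * ∑ k, (m k + 1).choose 2 ≤ (M + 1) * ∑ i, m i := by
        rw [Finset.mul_sum, Finset.mul_sum]
        apply Finset.sum_le_sum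
        intro i _
        have h4 := two_mul_kk (m i)
        rw [kk] at h4
        have h5 := hM i
        rw [h4]
        nlinarith
      have h6 : 2 * (d + 2).choose 2 = (d + 2) * (d + 1) := by
        have := Nat.triangle_succ (d + 1)
        rw [Nat.choose_two_right]
        have h7 : 2 ∣ (d + 2) * (d + 2 - 1) := by
          rw [mul_comm]
          have := Nat.even_mul_succ_self (d + 1)
          exact this.two_dvd
        rw [Nat.mul_div_cancel' h7]
        rfl
      have h8 : 2 * M * (M - 1) ≤ 2 * (M * M) := by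
        rw [mul_assoc]
        exact Nat.mul_le_mul_left _ (Nat.mul_le_mul_left _ (Nat.sub_le _ _))
      obtain ⟨S, hS⟩ : ∃ S, S = ∑ i, m i := ⟨_, rfl⟩
      rw [← hS] at h3 ⊢
      by_contra hcon
      push Not at hcon
      have h9 : (M + 1) * (2 * S) + (M + 1) ≤ (M + 1) * (211 * (M * M) + 219 * M + 72) := by
        have := Nat.mul_le_mul_left (M + 1) (Nat.succ_le_of_lt hcon)
        calc (M + 1) * (2 * S) + (M + 1) = (M + 1) * (2 * S).succ := by
              rw [Nat.succ_eq_add_one]; ring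
          _ ≤ _ := this
      nlinarith
    · intro i hi
      have := hM i
      omega

/-- **The union of the criteria.** -/
theorem manySmall (d h M : ℕ) (m : Fin h → ℕ)
    (H : (106 * (M + 1) ^ 2 ≤ ∑ i with m i ≤ M, m i ∧ ∀ i, 2 * M + 1 < m i →
        ∑ j with m i ≤ m j, (m j + 1).choose 2 + 2 * m i * (m i - 1) < (d + 2).choose 2) ∨
      ((∀ i, m i ≤ M) ∧ 106 * (M + 1) ^ 3 ≤ d ^ 2) ∨
      (∀ i, 2 ≤ m i →
        (2 * m i).choose 2 ≤ ∑ j with m j < m i, (m j + 1).choose 2 ∨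
        ∑ j with m i ≤ m j, (m j + 1).choose 2 + 2 * m i * (m i - 1) < (d + 2).choose 2)) :
    ∃ Q : MvPolynomial (Fin h × Fin 3) ℂ, Q ≠ 0 ∧ ∀ p : Fin h → Fin 3 → ℂ,
      eval (fun ij : Fin h × Fin 3 => p ij.1 ij.2) Q ≠ 0 →
      Module.finrank ℂ (sys d h m p) = (d + 2).choose 2 - ∑ k, (m k + 1).choose 2 := by
  rcases H with ⟨h1, h2⟩ | ⟨h1, h2⟩ | h1
  · exact mainGR d h M m h1 h2
  · exact cubeGR d h M m h1 h2
  · exact fatTail d h m h1

end Pool.Agent.helper1.EX
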