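import Pool.Agent.helper7.Hex.Final
import Pool.Agent.helper1.EX.GRU

set_option autoImplicit false

/-!
# Three arbitrary points and many small multiplicities

The strip for hexagons (triangles of monomials without three corners): two pentagons, no matching
along a column is needed.
-/

namespace Pool.Agent.helper1.EX

open Pool.Agent.helper89.Segre Pool.Agent.SH9 Pool.Agent.helper61.EX Pool.Agent.helper7.Hex

lemma shrink {D : Finset (ℕ × ℕ)} {ms : Multiset ℕ} {r : ℕ} (h : Good ℂ D ms r) :
    ∃ D' ⊆ D, D'.card = r ∧ Good ℂ D' ms r := by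
  classical
  obtain ⟨L, h1, h2, ι, i1, i2, φ, e, h3, h4, h5, h6⟩ := h
  have hinj : Function.Injective e := by
    intro i j hij
    by_contra hne
    apply h6
    exact Matrix.det_zero_of_column_eq hne (fun k => by simp [hij])
  refine ⟨Finset.univ.image e, ?_, ?_, L, h1, h2, ι, i1, i2, φ, e, h3, h4,
    fun i => Finset.mem_image_of_mem _ (Finset.mem_univ _), h6⟩
  · intro x hx
    obtain ⟨i, _, rfl⟩ := Finset.mem_image.mp hx
    exact h5 i
  · rw [Finset.card_image_of_injective _ hinj, Finset.card_univ, h3]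

lemma split2 {DA DB : Finset (ℕ × ℕ)} {A B : Multiset ℕ} {rA rB : ℕ}
    (hlex : ∀ e ∈ DA, ∀ e' ∈ DB, e'.1 < e.1)
    (hA : Good ℂ DA A rA) (hB : Good ℂ DB B rB) : Good ℂ (DA ∪ DB) (A + B) (rA + rB) := by
  classical
  obtain ⟨D', h1, h2, h3⟩ := shrink hA
  rw [← h2] at h3
  have := Good.split (fun e he e' he' => Or.inl (hlex e (h1 he) e' he')) h3 hB
  rw [h2] at this
  exact this.mono_left (Finset.union_subset_union_left h1)

/-- non-speciality is known outside a strip, for polynomials with exponents in `D` -/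
structure StripD (D : Finset (ℕ × ℕ)) (M WR WE : ℕ) : Prop where
  reg : ∀ S : Multiset ℕ, (∀ x ∈ S, x ≤ M) → cd S + WR ≤ D.card → Good ℂ D S (cd S)
  emp : ∀ S : Multiset ℕ, (∀ x ∈ S, x ≤ M) → D.card + WE ≤ cd S → Good ℂ D S D.card

lemma StripD.mono {D : Finset (ℕ × ℕ)} {M WR WE WR' WE' : ℕ} (h : StripD D M WR WE)
    (h1 : WR ≤ WR') (h2 : WE ≤ WE') : StripD D M WR' WE' :=
  ⟨fun S hS h3 => h.reg S hS (by omega), fun S hS h3 => h.emp S hS (by omega)⟩

lemma StripD.trans {D D' : Finset (ℕ × ℕ)} {M WR WE : ℕ} (h : StripD D M WR WE)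
    (hc : D'.card = D.card) (hg : ∀ (S : Multiset ℕ) (r : ℕ), Good ℂ D S r → Good ℂ D' S r) :
    StripD D' M WR WE :=
  ⟨fun S hS h3 => hg _ _ (h.reg S hS (by omega)), fun S hS h3 => by
    rw [hc]
    exact hg _ _ (h.emp S hS (by omega))⟩

lemma StripD.split {U W D : Finset (ℕ × ℕ)} {M WR1 WE1 WR2 WE2 : ℕ} (hM : 0 < M)
    (hU : StripD U M WR1 WE1) (hW : StripD W M WR2 WE2)
    (hlex : ∀ e ∈ U, ∀ e' ∈ W, e'.1 < e.1) (hD : U ∪ W = D) :
    StripD D M (WR1 + WR2 + kk M) (WE1 + WE2 + kk M) := by
  classical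
  have hdisj : Disjoint U W := by
    rw [Finset.disjoint_left]
    intro e he he'
    exact absurd (hlex e he e he') (lt_irrefl _)
  have hcard : D.card = U.card + W.card := by
    rw [← hD, Finset.card_union_of_disjoint hdisj]
  have hκ : 0 < kk M := Nat.choose_pos (by omega)
  constructor
  · intro S hS h
    rcases Nat.lt_or_ge U.card (cd S + WR1) with h1 | h1
    · rcases Nat.lt_or_ge U.card (WR1 + kk M) with h2 | h2
      · have h3 := split2 hlex (good_zero ℂ U 0) (hW.reg S hS (by omega))
        rw [zero_add, zero_add, hD] at h3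
        exact h3
      · obtain ⟨P, Q, hPQ, h3, h4⟩ := select (kk M) (U.card - WR1 - kk M) S 0
          (fun m hm => kk_mono (hS m hm)) (by omega) (by
            change _ ≤ 0 + cd S
            omega)
        change _ ≤ 0 + cd P at h3
        change 0 + cd P < _ at h4
        have hsum : cd S = cd P + cd Q := by rw [hPQ, cd_add]
        have hP : ∀ m ∈ P, m ≤ M := fun m hm => hS m (by
          rw [hPQ]; exact Multiset.mem_add.mpr (Or.inl hm))
        have hQ : ∀ m ∈ Q, m ≤ M := fun m hm => hS m (by
          rw [hPQ]; exact Multiset.mem_add.mpr (Or.inr hm))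
        have h5 := split2 hlex (hU.reg P hP (by omega)) (hW.reg Q hQ (by omega))
        rw [hsum, ← hD, hPQ]
        exact h5
    · have h3 := split2 hlex (hU.reg S hS h1) (good_zero ℂ W 0)
      rw [add_zero, add_zero, hD] at h3
      exact h3
  · intro S hS h
    obtain ⟨P, Q, hPQ, h3, h4⟩ := select (kk M) (U.card + WE1) S 0
      (fun m hm => kk_mono (hS m hm)) (by omega) (by
        change _ ≤ 0 + cd S
        omega)
    change _ ≤ 0 + cd P at h3
    change 0 + cd P < _ at h4
    have hsum : cd S = cd P + cd Q := by rw [hPQ, cd_add]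
    have hP : ∀ m ∈ P, m ≤ M := fun m hm => hS m (by
      rw [hPQ]; exact Multiset.mem_add.mpr (Or.inl hm))
    have hQ : ∀ m ∈ Q, m ≤ M := fun m hm => hS m (by
      rw [hPQ]; exact Multiset.mem_add.mpr (Or.inr hm))
    have h5 := split2 hlex (hU.emp P hP (by omega)) (hW.emp Q hQ (by omega))
    rw [hcard, ← hD, hPQ]
    exact h5

lemma strip_pent {A B D M : ℕ} (hM0 : 0 < M) (hD : D ≤ A + B) (hM : M ≤ min A B + 1) :
    StripD (pent A B D) M (2 * M * (M - 1) + 1) (5 * kk M) :=
  ⟨fun S hS h => pent_indep hD hM hS (by change cd S + _ < _; omega),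
    fun S hS h => pent_empty hD hM0 hM hS h⟩

/-- the strip for hexagons that can be cut in two -/
lemma strip_hex {a b c d H M : ℕ} (hM : 0 < M) (hbH : b ≤ H) (hHc : H ≤ c) (hMH : M ≤ H)
    (hR : a + H + M ≤ d) (hac : a + c ≤ d) (hcM : c + M ≤ d) :
    StripD (hex a b c d) M (4 * M * (M - 1) + 2 + kk M) (11 * kk M) := by
  set AR := d - a - H with hAR
  set B := d - c with hB
  set DR := d - H with hDR
  set U := (pent (AR - 1) B (DR - 1)).image (fun e => (e.1 + (H + 1), e.2)) with hU
  have hUmem : ∀ e, e ∈ U ↔ H < e.1 ∧ e.1 + a ≤ d ∧ e.2 + c ≤ d ∧ e.1 + e.2 ≤ d := by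
    intro e
    rw [hU, Finset.mem_image]
    constructor
    · rintro ⟨f, hf, rfl⟩
      rw [mem_pent] at hf
      simp only
      omega
    · rintro ⟨h3, h4, h5, h6⟩
      refine ⟨(e.1 - (H + 1), e.2), ?_, ?_⟩
      · rw [mem_pent]; simp only; omega
      · ext
        · simp only; omega
        · rfl
  set DL := H + B - b with hDL
  set W := (pent H B DL).image (fun e => (H - e.1, B - e.2)) with hW
  have hWmem : ∀ e, e ∈ W ↔ e.1 ≤ H ∧ b ≤ e.1 + e.2 ∧ e.2 + c ≤ d := by
    intro e
    rw [hW, Finset.mem_image]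
    constructor
    · rintro ⟨f, hf, rfl⟩
      rw [mem_pent] at hf
      simp only
      omega
    · rintro ⟨h3, h4, h5⟩
      refine ⟨(H - e.1, B - e.2), ?_, ?_⟩
      · rw [mem_pent]; simp only; omega
      · ext
        · simp only; omega
        · simp only; omega
  have hhex : U ∪ W = hex a b c d := by
    ext e
    rw [Finset.mem_union, hUmem, hWmem, mem_hex]
    omega
  have sU : StripD U M (2 * M * (M - 1) + 1) (5 * kk M) :=
    (strip_pent (A := AR - 1) (B := B) (D := DR - 1) hM (by omega) (by omega)).trans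
      (card_shift _ _) (fun S r h => h.shift (H + 1))
  have sW : StripD W M (2 * M * (M - 1) + 1) (5 * kk M) := by
    refine (strip_pent (A := H) (B := B) (D := DL) hM (by omega) (by omega)).trans ?_ ?_
    · rw [hW]
      apply Finset.card_image_of_injOn
      intro x hx z hz hxz
      have h3 := mem_pent.mp hx
      have h4 := mem_pent.mp hz
      simp only [Prod.mk.injEq] at hxz
      ext
      · omega
      · omega
    · intro S r h
      exact good_reflect (N := H) (B := B) (by
        intro e he
        have := mem_pent.mp he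
        omega) h
  have key := StripD.split hM sU sW (fun e he e' he' => by
    have h1 := (hUmem e).mp he
    have h2 := (hWmem e').mp he'
    omega) hhex
  refine key.mono (by
    have : 4 * M * (M - 1) = 2 * M * (M - 1) + 2 * M * (M - 1) := by ring
    omega) (by omega)

/-- the strip for a triangle without one corner -/
lemma strip_one {a d M : ℕ} (hM : 0 < M) (had : a + M ≤ d + 1) :
    StripD (hex a 0 0 d) M (2 * M * (M - 1) + 1) (5 * kk M) := by
  have h1 : pent (d - a) d d = hex a 0 0 d := by
    ext e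
    rw [mem_pent, mem_hex]
    omega
  rw [← h1]
  exact strip_pent hM (by omega) (by omega)

/-- the strip for two small corners -/
lemma strip_small_corners {a b c d M : ℕ} (hM : 0 < M) (had : a + M ≤ d + 1)
    (hd : 2 * M ≤ d + 1) (hb : b ≤ M) (hc : c ≤ M) :
    StripD (hex a b c d) M (2 * M * (M - 1) + 1) (5 * kk M) := by
  have s := strip_one (a := a) (d := d) hM (by omega)
  have c1 := card_corners (a := a) (b := b) (c := c) (d := d) (by omega) (by omega) (by omega)
  have c2 := card_corners (a := a) (b := 0) (c := 0) (d := d) (by omega) (by omega) (by omega)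
  have e0 : kk 0 = 0 := rfl
  have hmem : ∀ S : Multiset ℕ, (∀ x ∈ S, x ≤ M) → ∀ m ∈ b ::ₘ c ::ₘ S, m ≤ M := by
    intro S hS m hm
    rcases Multiset.mem_cons.mp hm with rfl | hm
    · exact hb
    rcases Multiset.mem_cons.mp hm with rfl | hm
    · exact hc
    · exact hS m hm
  constructor
  · intro S hS h
    have g := s.reg _ (hmem S hS) (by rw [cd_cons, cd_cons]; omega)
    rw [cd_cons, cd_cons] at g
    exact good_hex_of_points (by omega) (by omega) (by omega) g
  · intro S hS h
    have g := s.emp _ (hmem S hS) (by rw [cd_cons, cd_cons]; omega)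
    apply good_hex_of_points (by omega) (by omega) (by omega)
    convert g using 1
    omega

/-- the strip for all hexagons -/
lemma strip_hex_all {a1 a2 a3 d M : ℕ} (hM : 0 < M)
    (h12 : a2 ≤ a1) (h23 : a3 ≤ a2) (h1 : a1 + 2 * M ≤ d) (h : a1 + a2 ≤ d + 1) (hM2 : M ≤ a2) :
    StripD (hex a1 a3 a2 d) M (4 * M * (M - 1) + 2 + kk M) (11 * kk M) := by
  by_cases hB1 : a1 + a3 + M ≤ d
  · by_cases h' : a1 + a2 ≤ d
    · exact strip_hex (H := max a3 M) hM (by omega) (by omega) (by omega) (by omega) h' (by omega)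
    · have heq : hex a1 a3 a2 d = hex (a1 - 1) a3 (a2 - 1) (d - 1) := by
        ext e
        rw [mem_hex, mem_hex]
        omega
      rw [heq]
      exact strip_hex (H := max a3 M) hM (by omega) (by omega) (by omega) (by omega) (by omega)
        (by omega)
  · have ha : a1 + 1 ≤ d := by omega
    have hb : a3 + 1 ≤ d := by omega
    have hc : a2 + 1 ≤ d := by omega
    have e1 : a1 + a3 ≤ d + 1 := by omega
    have e2 : a3 + a2 ≤ d + 1 := by omega
    have s := strip_small_corners (a := d - a3 - a2) (b := d - a1 - a2) (c := d - a1 - a3)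
      (d := 2 * d - a1 - a3 - a2) hM (by omega) (by omega) (by omega) (by omega)
    refine (s.trans (card_hex_reflect ha hb hc e1 h e2).symm
      (fun S r => good_hex_reflect ha hb hc e1 h e2)).mono ?_ ?_
    · have : 4 * M * (M - 1) = 2 * M * (M - 1) + 2 * M * (M - 1) := by ring
      omega
    · omega

/-- **The strip with three arbitrary points.** -/
theorem stripR_three {a1 a2 a3 d M : ℕ} (hM : 0 < M) (h12 : a2 ≤ a1) (h23 : a3 ≤ a2)
    (h1 : a1 + 2 * M ≤ d) (h : a1 + a2 ≤ d + 1) :
    StripR d M (a1 ::ₘ a2 ::ₘ a3 ::ₘ 0) (4 * M * (M - 1) + 2 + kk M) (11 * kk M) := by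
  have hR : cd (a1 ::ₘ a2 ::ₘ a3 ::ₘ 0) = kk a1 + (kk a2 + kk a3) := by
    rw [cd_cons, cd_cons, cd_cons, cd_zero, add_zero]
  by_cases hM2 : M ≤ a2
  · have s := strip_hex_all hM h12 h23 h1 h hM2
    have c1 := card_corners (a := a1) (b := a3) (c := a2) (d := d) (by omega) (by omega) (by omega)
    have e1 : ∀ S : Multiset ℕ, a2 ::ₘ a3 ::ₘ a1 ::ₘ S = S + (a1 ::ₘ a2 ::ₘ a3 ::ₘ 0) := by
      intro S
      rw [Multiset.add_cons, Multiset.add_cons, Multiset.add_cons, add_zero,
        Multiset.cons_swap a3 a1, Multiset.cons_swap a2 a1]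
    constructor
    · intro ms hms h3
      rw [hR] at h3
      have g := good_corners (a := a1) (b := a3) (c := a2) (by omega) (by omega) (by omega)
        (s.reg ms hms (by omega))
      rw [e1] at g
      rw [hR]
      convert g using 1
      omega
    · intro ms hms h3
      rw [hR] at h3
      have g := good_corners (a := a1) (b := a3) (c := a2) (by omega) (by omega) (by omega)
        (s.emp ms hms (by omega))
      rw [e1] at g
      show Good ℂ (tri d) _ (tri d).card
      rw [c1]
      exact g
  · have s := strip_one (a := a1) (d := d) hM (by omega)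
    have c1 := card_corner (a := a1) (b := 0) (c := 0) (d := d) (by omega) (by omega)
    rw [hex_zero] at c1
    have hmem : ∀ S : Multiset ℕ, (∀ x ∈ S, x ≤ M) → ∀ m ∈ a2 ::ₘ a3 ::ₘ S, m ≤ M := by
      intro S hS m hm
      rcases Multiset.mem_cons.mp hm with rfl | hm
      · omega
      rcases Multiset.mem_cons.mp hm with rfl | hm
      · omega
      · exact hS m hm
    have e1 : ∀ S : Multiset ℕ, a1 ::ₘ a2 ::ₘ a3 ::ₘ S = S + (a1 ::ₘ a2 ::ₘ a3 ::ₘ 0) := by
      intro S
      rw [Multiset.add_cons, Multiset.add_cons, Multiset.add_cons, add_zero]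
    have e3 : 4 * M * (M - 1) = 2 * M * (M - 1) + 2 * M * (M - 1) := by ring
    constructor
    · intro ms hms h3
      rw [hR] at h3
      have g := good_corner (a := a1) (b := 0) (c := 0) (by omega) (by omega)
        (s.reg (a2 ::ₘ a3 ::ₘ ms) (hmem ms hms) (by rw [cd_cons, cd_cons]; omega))
      rw [hex_zero, cd_cons, cd_cons, e1] at g
      rw [hR]
      convert g using 1
      omega
    · intro ms hms h3
      rw [hR] at h3
      have g := good_corner (a := a1) (b := 0) (c := 0) (by omega) (by omega)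
        (s.emp (a2 ::ₘ a3 ::ₘ ms) (hmem ms hms) (by rw [cd_cons, cd_cons]; omega))
      rw [hex_zero, e1] at g
      show Good ℂ (tri d) _ (tri d).card
      rw [c1]
      exact g

end Pool.Agent.helper1.EX
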