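import Pool.Agent.SH9.NumS
import Pool.Agent.SH9.NumR
import Pool.Agent.SH9.NumE

set_option autoImplicit false

/-!
# Numerical inequalities for `h` points of multiplicity `μ` and at most three of multiplicity `m`

`numR2`, `numU2`: regular half, `2 m ≤ μ`. `numE2`: empty half, `μ = 2 m + 1`.
-/

namespace Pool.Agent.helper1.EX

open Real Pool.Agent.SH9

/-- the real inequalities behind `numR2` -/
theorem numR_real2 {h μ B σ x S s ε H m r : ℝ} (hH : 192 ≤ H) (hHh : H ≤ h) (hσ : 0 < σ)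
    (hσH : σ ^ 2 = H) (hB : h * σ ≤ B) (hμ : 1 ≤ μ) (hε : 0 ≤ ε) (hm0 : 0 ≤ m)
    (hm : 4 * m + 1 ≤ μ) (hr0 : 0 ≤ r) (hr : r ≤ 3)
    (hv : h * μ ^ 2 - h + 4 * r * (m * (m + 1)) + 1 + 16 * B * σ + 2 * ε * B ^ 2 ≤ (B - 1) ^ 2)
    (hx0 : 0 ≤ x) (hx : x ^ 2 = s) (hs : s ≤ 11 * H) (hS0 : 0 ≤ S) (hS : S ^ 2 ≤ h * s) :
    (1 + ε) * (h * μ ^ 2 + 2 * μ * S + s + 4 * r * (m + 1) ^ 2) ≤ (B + 2) ^ 2 ∧
      h * μ ^ 2 + 4 * μ * S + 3 * s + 4 * r * ((m + 1) * (m + 2)) + 1 < (B + 5) ^ 2 := by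
  have hσ1 : 13 ≤ σ := by nlinarith
  have hh0 : 0 < h := by linarith
  have hB0 : 0 < B := lt_of_lt_of_le (mul_pos hh0 hσ) hB
  have hs0 : 0 ≤ s := by rw [← hx]; positivity
  have hrm0 : 0 ≤ r * (m * (m + 1)) := by positivity
  -- `x ≤ 3.32 σ`
  have hxσ : x ≤ 332 / 100 * σ := by
    apply le_of_sq_le_sq _ (by positivity)
    rw [hx, mul_pow, hσH]
    linarith
  -- `192 h ≤ B σ`
  have hhB : 192 * h ≤ B * σ := by
    have h1 : h * σ * σ ≤ B * σ := mul_le_mul_of_nonneg_right hB hσ.le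
    have h2 : h * σ * σ = h * H := by rw [← hσH]; ring
    rw [h2] at h1
    nlinarith
  have hHB : 192 * H ≤ B * σ := by linarith
  have hBσ : 0 < B * σ := mul_pos hB0 hσ
  -- `h μ² ≤ B²`
  have hqμ : h * μ ^ 2 ≤ B ^ 2 := by
    have : 0 ≤ 2 * ε * B ^ 2 := by positivity
    nlinarith
  -- `13 μ ≤ B`
  have hμB : 13 * μ ≤ B := by
    apply le_of_sq_le_sq _ hB0.le
    rw [mul_pow]
    nlinarith [mul_nonneg (sq_nonneg μ) (by linarith : (0 : ℝ) ≤ h - 192)]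
  -- `μ S ≤ B x`
  have hμS : μ * S ≤ B * x := by
    apply le_of_sq_le_sq _ (by positivity)
    calc (μ * S) ^ 2 = μ ^ 2 * S ^ 2 := by ring
      _ ≤ μ ^ 2 * (h * s) := mul_le_mul_of_nonneg_left hS (by positivity)
      _ = h * μ ^ 2 * s := by ring
      _ ≤ B ^ 2 * s := mul_le_mul_of_nonneg_right hqμ hs0
      _ = (B * x) ^ 2 := by rw [mul_pow, hx]
  have hμS2 : μ * S ≤ 332 / 100 * (B * σ) := by
    refine hμS.trans ?_
    have := mul_le_mul_of_nonneg_left hxσ hB0.le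
    linarith
  -- `192 σ ≤ B`
  have hσB : 192 * σ ≤ B := by
    refine le_trans ?_ hB
    exact mul_le_mul_of_nonneg_right (by linarith) hσ.le
  have hBσ2 : 192 * (B * σ) ≤ B ^ 2 := by
    have := mul_le_mul_of_nonneg_left hσB hB0.le
    nlinarith
  have hBB : 13 * B ≤ B * σ := by nlinarith
  -- the extra points
  have hrm : r * (m + 1) ≤ 3 * (m + 1) := mul_le_mul_of_nonneg_right hr (by linarith)
  have hrm2 : r * (m + 1) ≤ B := by nlinarith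
  have hB100 : 2000 ≤ B := by nlinarith
  constructor
  · have hA : h * μ ^ 2 + 2 * μ * S + s + 4 * r * (m + 1) ^ 2 ≤ 2 * B ^ 2 := by
      have : 4 * r * (m + 1) ^ 2 = 4 * r * (m * (m + 1)) + 4 * (r * (m + 1)) := by ring
      have h9 : 0 ≤ 2 * ε * B ^ 2 := by positivity
      nlinarith
    have hεA := mul_le_mul_of_nonneg_left hA hε
    have : 4 * r * (m + 1) ^ 2 = 4 * r * (m * (m + 1)) + 4 * (r * (m + 1)) := by ring
    nlinarith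
  · have : 4 * r * ((m + 1) * (m + 2)) = 4 * r * (m * (m + 1)) + 8 * (r * (m + 1)) := by ring
    have h9 : 0 ≤ 2 * ε * B ^ 2 := by positivity
    nlinarith

theorem numR2 {H h μ m d j a s S r : ℕ} {z : ℝ} (hH : 192 ≤ H) (hHh : H ≤ h)
    (hexp : (h : ℝ) ≤ exp (H / 2)) (hm : h * H < 4 * μ ^ 2) (haH : H ≤ a) (haH' : a < 9 * H)
    (hj : 9 ^ j * H ≤ h) (hs : s ≤ a + 8 * j) (hS : S ^ 2 ≤ h * s) (hz : exp (3 * a / 40) ≤ z)
    (hr : r ≤ 3) (hmμ : 2 * m ≤ μ)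
    (hv : (h : ℝ) * ((μ + 1).choose 2 : ℕ) + r * ((m + 1).choose 2 : ℕ) +
      (d + 2) * (4 * √H + exp (-(3 * H / 40)) * (d + 2)) ≤ ((d + 2).choose 2 : ℕ)) :
    (z + 1) * ((h : ℝ) * (2 * μ + 1) ^ 2 + 2 * (2 * μ + 1) * S + s + 4 * r * (m + 1) ^ 2) ≤
        z * (4 * (d + 3) ^ 2) ∧
      h * (2 * μ + 1) ^ 2 + 4 * (2 * μ + 1) * S + 3 * s + 4 * r * ((m + 1) * (m + 2)) + 1 <
        (2 * d + 9) ^ 2 := by
  have hHR : (192 : ℝ) ≤ H := by exact_mod_cast hH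
  have hHhR : (H : ℝ) ≤ h := by exact_mod_cast hHh
  have hh0 : (0 : ℝ) < h := by linarith
  have hH0 : (0 : ℝ) < H := by linarith
  obtain ⟨σ, hσd⟩ : ∃ σ, σ = √(H : ℝ) := ⟨_, rfl⟩
  obtain ⟨ε, hεd⟩ : ∃ ε, ε = exp (-(3 * (H : ℝ) / 40)) := ⟨_, rfl⟩
  rw [← hσd, ← hεd] at hv
  have hσ : 0 < σ := by rw [hσd]; exact sqrt_pos.2 hH0
  have hσH : σ ^ 2 = (H : ℝ) := by rw [hσd]; exact sq_sqrt hH0.le
  have hε : 0 < ε := by rw [hεd]; exact exp_pos _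
  -- the binomials
  have hc1 := numS_choose μ
  have hc3 := numS_choose m
  have hc2 := numS_choose (d + 1)
  rw [hc1, hc3, hc2] at hv
  push_cast at hv
  have hd0 : (0 : ℝ) ≤ d := Nat.cast_nonneg d
  have hμ0 : (0 : ℝ) ≤ μ := Nat.cast_nonneg μ
  have hm0 : (0 : ℝ) ≤ m := Nat.cast_nonneg m
  have hr0 : (0 : ℝ) ≤ r := Nat.cast_nonneg r
  have hr3 : (r : ℝ) ≤ 3 := by exact_mod_cast hr
  have hmμR : 2 * (m : ℝ) ≤ μ := by exact_mod_cast hmμ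
  have hrm : 0 ≤ (r : ℝ) * (m * (m + 1) / 2) := by positivity
  -- `h σ ≤ B`
  have hmR : (h : ℝ) * H < 4 * μ ^ 2 := by exact_mod_cast hm
  have hB : (h : ℝ) * σ ≤ 2 * d + 4 := by
    apply le_of_sq_le_sq _ (by positivity)
    have h1 : ((h : ℝ) * σ) ^ 2 = h * (h * H) := by rw [mul_pow, hσH]; ring
    rw [h1]
    have h2 : (h : ℝ) * (h * H) ≤ h * (4 * μ ^ 2) := mul_le_mul_of_nonneg_left hmR.le hh0.le
    have h3 : 0 ≤ ((d : ℝ) + 2) * (4 * σ + ε * (d + 2)) := by positivity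
    have h4 : 0 ≤ (h : ℝ) * μ := by positivity
    nlinarith
  -- `s ≤ 11 H`
  have hs11 : (s : ℝ) ≤ 11 * H := by
    have h9 : exp (2 * (j : ℝ)) ≤ 9 ^ j := by
      have h1 : exp 2 ≤ 9 := by
        have h5 := Real.exp_one_lt_d9
        calc exp 2 = exp 1 ^ 2 := by rw [← Real.exp_nat_mul]; norm_num
          _ ≤ (2.7182818286 : ℝ) ^ 2 := pow_le_pow_left₀ (exp_pos _).le h5.le 2
          _ ≤ 9 := by norm_num
      rw [mul_comm, Real.exp_nat_mul]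
      exact pow_le_pow_left₀ (exp_pos _).le h1 j
    have h2 : (9 : ℝ) ^ j * H ≤ h := by exact_mod_cast hj
    have h3 : (9 : ℝ) ^ j ≤ h := by
      refine le_trans ?_ h2
      have : (0 : ℝ) < 9 ^ j := by positivity
      nlinarith
    have h4 : 2 * (j : ℝ) ≤ H / 2 := exp_le_exp.1 ((h9.trans h3).trans hexp)
    have h5 : (s : ℝ) ≤ a + 8 * j := by exact_mod_cast hs
    have h6 : (a : ℝ) ≤ 9 * H := by exact_mod_cast haH'.le
    linarith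
  have hSR : (S : ℝ) ^ 2 ≤ h * s := by exact_mod_cast hS
  have hmain := numR_real2 (μ := 2 * (μ : ℝ) + 1) (B := 2 * (d : ℝ) + 4) (x := √(s : ℝ))
    (S := S) (s := s) (ε := ε) (m := m) (r := r) hHR hHhR hσ hσH hB (by linarith) hε.le hm0
    (by linarith) hr0 hr3 (by nlinarith) (sqrt_nonneg _)
    (sq_sqrt (Nat.cast_nonneg s)) hs11 (Nat.cast_nonneg S) hSR
  obtain ⟨h1, h2⟩ := hmain
  constructor
  · -- `1 / z ≤ ε`
    have hz1 : exp (3 * (H : ℝ) / 40) ≤ z := by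
      refine le_trans (exp_le_exp.2 ?_) hz
      have : (H : ℝ) ≤ a := by exact_mod_cast haH
      linarith
    have hz0 : 0 < z := lt_of_lt_of_le (exp_pos _) hz1
    have hεz : 1 ≤ ε * z := by
      calc (1 : ℝ) = ε * exp (3 * (H : ℝ) / 40) := by
            rw [hεd, ← exp_add, neg_add_cancel, exp_zero]
        _ ≤ ε * z := mul_le_mul_of_nonneg_left hz1 hε.le
    obtain ⟨A, hA⟩ : ∃ A, A = (h : ℝ) * (2 * μ + 1) ^ 2 + 2 * (2 * μ + 1) * S + s +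
      4 * r * (m + 1) ^ 2 := ⟨_, rfl⟩
    rw [← hA] at h1 ⊢
    have hA0 : 0 ≤ A := by rw [hA]; positivity
    have h3 : A ≤ ε * z * A := le_mul_of_one_le_left hA0 hεz
    have h4 := mul_le_mul_of_nonneg_left h1 hz0.le
    nlinarith
  · have h3 : (h : ℝ) * (2 * μ + 1) ^ 2 + 4 * (2 * μ + 1) * S + 3 * s +
        4 * r * ((m + 1) * (m + 2)) + 1 < (2 * d + 9) ^ 2 := by
      have : (2 * (d : ℝ) + 4 + 5) ^ 2 = (2 * d + 9) ^ 2 := by ring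
      rw [this] at h2
      exact h2
    exact_mod_cast h3

/-- the weights of the regular half have total square at most `(a + 2) W²` -/
theorem numU2 {H h μ m j a s S r : ℕ} (hH : 192 ≤ H) (hHh : H ≤ h) (hm : h * H < 4 * μ ^ 2)
    (hj : 9 ^ j * H ≤ h) (ha : h < (a + 1) * 9 ^ j) (hs : s ≤ a + 8 * j)
    (hS : S ≤ (a + 4) * 3 ^ j) (hr : r ≤ 3) (hmμ : 2 * m ≤ μ) :
    h * (2 * μ + 1) ^ 2 + 2 * (2 * μ + 1) * S + s + 4 * r * (m + 1) ^ 2 ≤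
      (a + 2) * (3 ^ j * (2 * μ + 1) + 1) ^ 2 := by
  have h9 : 9 ^ j = (3 ^ j) ^ 2 := by
    rw [← pow_mul, mul_comm, pow_mul]
    norm_num
  have hm1 : 96 < μ := by
    have h1 : H * H ≤ h * H := Nat.mul_le_mul_right _ hHh
    have h2 : 192 * 192 ≤ H * H := Nat.mul_le_mul hH hH
    by_contra hc
    push Not at hc
    have : μ ^ 2 ≤ 96 ^ 2 := Nat.pow_le_pow_left hc 2
    omega
  have hjj : j ≤ 3 ^ j := (Nat.lt_pow_self (by norm_num)).le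
  obtain ⟨P, hP⟩ : ∃ P, P = 3 ^ j := ⟨_, rfl⟩
  obtain ⟨ν, hν⟩ : ∃ ν, ν = 2 * μ + 1 := ⟨_, rfl⟩
  have hP1 : 1 ≤ P := by rw [hP]; exact Nat.one_le_pow _ _ (by norm_num)
  have hν1 : 193 ≤ ν := by omega
  rw [← hν, ← hP]
  rw [h9, ← hP] at ha
  rw [← hP] at hS hjj
  have e1 : h * ν ^ 2 ≤ (a + 1) * P ^ 2 * ν ^ 2 := Nat.mul_le_mul_right _ ha.le
  have e2 : 2 * ν * S ≤ 2 * ν * ((a + 4) * P) := Nat.mul_le_mul_left _ hS
  obtain ⟨Y, hY⟩ : ∃ Y, Y = P * ν := ⟨_, rfl⟩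
  have e3' : ν ≤ Y := by
    rw [hY]
    exact Nat.le_mul_of_pos_left _ hP1
  have e3 : 193 ≤ Y := hν1.trans e3'
  have e4 : 8 * j ≤ Y := by
    rw [hY]
    calc 8 * j ≤ 8 * P := Nat.mul_le_mul_left _ hjj
      _ = P * 8 := mul_comm _ _
      _ ≤ P * ν := Nat.mul_le_mul_left _ (by omega)
  have e6 : (a + 1) * P ^ 2 * ν ^ 2 = (a + 1) * (Y * Y) := by rw [hY]; ring
  have e7 : 2 * ν * ((a + 4) * P) = 2 * (a + 4) * Y := by rw [hY]; ring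
  -- the extra points: `16 * 4 r (m+1)² ≤ 13 Y²`
  have e10 : 4 * r * (m + 1) ^ 2 ≤ 3 * (μ + 2) ^ 2 := by
    have h1 : 4 * (m + 1) ^ 2 ≤ (μ + 2) ^ 2 := by
      have : (2 * (m + 1)) ^ 2 ≤ (μ + 2) ^ 2 := Nat.pow_le_pow_left (by omega) 2
      nlinarith
    nlinarith [Nat.zero_le ((m + 1) ^ 2)]
  have e11 : 16 * (3 * (μ + 2) ^ 2) ≤ 13 * (ν * ν) := by
    rw [hν]
    nlinarith
  have e12 : ν * ν ≤ Y * Y := Nat.mul_le_mul e3' e3'
  have e5 : 80 * Y ≤ 3 * (Y * Y) := by nlinarith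
  rw [← hY]
  rw [e6] at e1
  rw [e7] at e2
  have e8 : (a + 2) * (Y + 1) ^ 2 = (a + 1) * (Y * Y) + Y * Y + 2 * (a + 2) * Y + (a + 2) := by
    ring
  rw [e8]
  have e9 : 2 * (a + 4) * Y = 2 * (a + 2) * Y + 4 * Y := by ring
  rw [e9] at e2
  omega

end Pool.Agent.helper1.EX
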