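import Pool.Agent.helper1.EX.HexStrip

set_option autoImplicit false

/-!
# Three arbitrary points and many small multiplicities: the theorem
-/

namespace Pool.Agent.helper1.EX

open MvPolynomial Pool.Agent.helper89.Segre Pool.Agent.SH9 Pool.Agent.helper61.EX
  Pool.Agent.helper7.Hex

/-- multiset form: `a1 ≥ a2 ≥ a3`, the others at most `2M+1` -/
theorem good_three_small {a1 a2 a3 d M : ℕ} (h12 : a2 ≤ a1) (h23 : a3 ≤ a2)
    (h1 : a1 + (4 * M + 2) ≤ d) (h : a1 + a2 ≤ d + 1) {ms R0 : Multiset ℕ} (hM : ∀ x ∈ ms, x ≤ M)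
    (hR0 : ∀ x ∈ R0, x ≤ 2 * M + 1) (hs : 467 * (M * M) + 475 * M + 152 ≤ 2 * ms.sum) :
    Good ℂ (tri d) (ms + R0 + (a1 ::ₘ a2 ::ₘ a3 ::ₘ 0))
      (min (tri d).card (cd (ms + R0 + (a1 ::ₘ a2 ::ₘ a3 ::ₘ 0)))) := by
  refine good_of_stripR (stripR_three (M := 2 * M + 1) (by omega) h12 h23 (by omega) h) hM hR0 ?_
  have h1 := two_mul_kk (2 * M + 1)
  have h2 : 4 * (2 * M + 1) * (2 * M + 1 - 1) = 16 * (M * M) + 8 * M := by
    rw [Nat.add_sub_cancel]; ring
  have h3 : (2 * M + 1) * (2 * M + 1) + (2 * M + 1) = 4 * (M * M) + 6 * M + 2 := by ring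
  have h5 : 3 * (M * (M + 1)) = 3 * (M * M) + 3 * M := by ring
  rw [h2]
  rw [h3] at h1
  rw [h5]
  omega

/-- The multiset form. -/
theorem good_multi_small {d M : ℕ} (N : Multiset ℕ)
    (hcard : Multiset.card (N.filter (fun x => 2 * M + 1 < x)) ≤ 3)
    (hN : ∀ x ∈ N, x + (4 * M + 2) ≤ d) (hd : 4 * M + 2 ≤ d)
    (hs : 234 * (M + 1) ^ 2 ≤ (N.filter (fun x => x ≤ M)).sum)
    (hpair : ∀ a b S, N = a ::ₘ b ::ₘ S → a + b ≤ d + 1) :
    Good ℂ (tri d) N (min (N.map kk).sum (tri d).card) := by
  classical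
  obtain ⟨N', hN'⟩ : ∃ N', N' = N + Multiset.replicate 3 0 := ⟨_, rfl⟩
  have hle : ∀ x ∈ N', x ≤ d := by
    intro x hx
    rw [hN'] at hx
    rcases Multiset.mem_add.mp hx with hx | hx
    · have := hN x hx; omega
    · rw [Multiset.eq_of_mem_replicate hx]; omega
  obtain ⟨T, S, h1, h2, h3, h4⟩ := Pool.Agent.helper89.Segre.pick d 3 N' (by
    rw [hN', Multiset.card_add]; simp) hle
  obtain ⟨a1, a2, a3, rfl, h12, h23⟩ := sorted_three h2
  have hN'eq : N' = a1 ::ₘ a2 ::ₘ a3 ::ₘ S := by
    rw [h1]; simp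
  -- the others are small
  have hf : N'.filter (fun x => 2 * M + 1 < x) = N.filter (fun x => 2 * M + 1 < x) := by
    rw [hN', Multiset.filter_add]
    have : (Multiset.replicate 3 0).filter (fun x => 2 * M + 1 < x) = 0 := by
      rw [Multiset.filter_eq_nil]
      intro a ha
      rw [Multiset.eq_of_mem_replicate ha]; omega
    rw [this, add_zero]
  have hS : ∀ m ∈ S, m ≤ 2 * M + 1 := by
    intro m hm
    by_contra hcon
    have g1 := h3 a1 (by simp) m hm
    have g2 := h3 a2 (by simp) m hm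
    have g3 := h3 a3 (by simp) m hm
    obtain ⟨S', rfl⟩ := Multiset.exists_cons_of_mem hm
    rw [← hf, hN'eq, Multiset.filter_cons_of_pos _ (by omega),
      Multiset.filter_cons_of_pos _ (by omega), Multiset.filter_cons_of_pos _ (by omega),
      Multiset.filter_cons_of_pos _ (by omega)] at hcard
    simp only [Multiset.card_cons] at hcard
    omega
  have ha1 : a1 + (4 * M + 2) ≤ d := by
    have : a1 ∈ N' := by rw [hN'eq]; simp
    rw [hN'] at this
    rcases Multiset.mem_add.mp this with hx | hx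
    · exact hN _ hx
    · rw [Multiset.eq_of_mem_replicate hx]; omega
  have h12' : a1 + a2 ≤ d + 1 := by
    by_cases h0 : a2 = 0
    · omega
    have hf0 : N'.filter (fun x => 0 < x) = N.filter (fun x => 0 < x) := by
      rw [hN', Multiset.filter_add]
      have : (Multiset.replicate 3 0).filter (fun x => 0 < x) = 0 := by
        rw [Multiset.filter_eq_nil]
        intro a ha
        rw [Multiset.eq_of_mem_replicate ha]; omega
      rw [this, add_zero]
    rw [hN'eq, Multiset.filter_cons_of_pos _ (by omega),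
      Multiset.filter_cons_of_pos _ (by omega)] at hf0
    apply hpair a1 a2 ((a3 ::ₘ S).filter (fun x => 0 < x) + N.filter (fun x => ¬ 0 < x))
    rw [← Multiset.cons_add, ← Multiset.cons_add, hf0, Multiset.filter_add_not]
  -- the sum of the small ones
  have hsS : (N.filter (fun x => x ≤ M)).sum ≤ (S.filter (fun x => x ≤ M)).sum + 3 * M := by
    have e1 : (N'.filter (fun x => x ≤ M)).sum = (N.filter (fun x => x ≤ M)).sum := by
      rw [hN', Multiset.filter_add, Multiset.sum_add]
      have : (Multiset.filter (fun x => x ≤ M) (Multiset.replicate 3 0)).sum = 0 := by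
        apply Multiset.sum_eq_zero
        intro x hx
        exact Multiset.eq_of_mem_replicate (Multiset.mem_filter.mp hx).1
      rw [this, add_zero]
    have e2 : ∀ (a : ℕ) (L : Multiset ℕ), ((a ::ₘ L).filter (fun x => x ≤ M)).sum ≤
        (L.filter (fun x => x ≤ M)).sum + M := by
      intro a L
      by_cases h : a ≤ M
      · rw [Multiset.filter_cons_of_pos (p := fun x => x ≤ M) _ h, Multiset.sum_cons]; omega
      · rw [Multiset.filter_cons_of_neg (p := fun x => x ≤ M) _ h]; omega
    have e3 := e2 a1 (a2 ::ₘ a3 ::ₘ S)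
    have e4 := e2 a2 (a3 ::ₘ S)
    have e5 := e2 a3 S
    rw [← e1, hN'eq]
    omega
  have g := good_three_small (d := d) (M := M) h12 h23 ha1 h12' (ms := S.filter (fun x => x ≤ M))
    (R0 := S.filter (fun x => ¬ x ≤ M)) (fun x hx => (Multiset.mem_filter.mp hx).2)
    (fun x hx => hS x (Multiset.mem_filter.mp hx).1) (by
      have : 234 * (M + 1) ^ 2 = 234 * (M * M) + 468 * M + 234 := by ring
      rw [this] at hs
      omega)
  rw [Multiset.filter_add_not, Multiset.add_cons, Multiset.add_cons, Multiset.add_cons,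
    add_zero, ← hN'eq, min_comm] at g
  have hsum : cd N' = (N.map kk).sum := by
    change (N'.map kk).sum = _
    rw [hN', Multiset.map_add, Multiset.sum_add, Multiset.map_replicate, Multiset.sum_replicate]
    have : kk 0 = 0 := rfl
    rw [this, smul_zero, add_zero]
  rw [hsum] at g
  rw [hN', show (3 : ℕ) = 0 + 1 + 1 + 1 from rfl, Multiset.replicate_succ,
    Multiset.replicate_succ, Multiset.replicate_succ, Multiset.replicate_zero,
    Multiset.add_cons, Multiset.add_cons, Multiset.add_cons, add_zero] at g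
  exact good_drop_zero (good_drop_zero (good_drop_zero g))

/-- **Three arbitrary points, many small ones.** -/
theorem threeSmall (d h M : ℕ) (m : Fin h → ℕ) (T : Finset (Fin h)) (hT : T.card ≤ 3)
    (hm : ∀ i, m i + (4 * M + 2) ≤ d) (hsmall : ∀ i, i ∉ T → m i ≤ 2 * M + 1)
    (hs : 234 * (M + 1) ^ 2 ≤ ∑ i with m i ≤ M, m i) :
    (∃ Q : MvPolynomial (Fin h × Fin 3) ℂ, Q ≠ 0 ∧ ∀ p : Fin h → Fin 3 → ℂ,
      eval (fun ij : Fin h × Fin 3 => p ij.1 ij.2) Q ≠ 0 →
      Module.finrank ℂ (sys d h m p) = (d + 2).choose 2 - ∑ k, (m k + 1).choose 2) ∨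
    (∃ Q : MvPolynomial (Fin h × Fin 3) ℂ, Q ≠ 0 ∧ ∀ p : Fin h → Fin 3 → ℂ,
      eval (fun ij : Fin h × Fin 3 => p ij.1 ij.2) Q ≠ 0 →
      ∃ l : MvPolynomial (Fin 3) ℂ, l.IsHomogeneous 1 ∧ l ≠ 0 ∧
        ∀ f ∈ sys d h m p, l ^ 2 ∣ f) := by
  classical
  by_cases hij : ∃ i j, i ≠ j ∧ d + 2 ≤ m i + m j
  · right
    obtain ⟨i, j, hne, hab⟩ := hij
    refine ⟨X (i, 0) * X (j, 1) - X (i, 1) * X (j, 0), ?_, ?_⟩
    · intro h0
      have h1 := congrArg (eval (fun ij : Fin h × Fin 3 =>
        if ij.1 = i then (if ij.2 = 0 then (1 : ℂ) else 0) else (if ij.2 = 1 then 1 else 0))) h0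
      simp [hne.symm] at h1
    · intro p hp
      apply double_line (i := i) (j := j) _ hab
      simpa using hp
  · left
    push Not at hij
    apply generic_of_good
    have hex : ∃ i : Fin h, True := by
      by_contra hcon
      push Not at hcon
      have : (∑ i with m i ≤ M, m i) = 0 := by
        apply Finset.sum_eq_zero
        intro i _
        exact (hcon i).elim
      rw [this] at hs
      have : 0 < 234 * (M + 1) ^ 2 := by positivity
      omega
    have g := good_multi_small (d := d) (M := M) (Finset.univ.val.map m) ?_ ?_ ?_ ?_ ?_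
    · rwa [sumkk_eq, card_tri] at g
    · rw [Multiset.filter_map, Multiset.card_map]
      have h1 : Multiset.card (Multiset.filter ((fun x => 2 * M + 1 < x) ∘ m) Finset.univ.val) =
          (Finset.univ.filter (fun i => 2 * M + 1 < m i)).card := rfl
      rw [h1]
      refine le_trans (Finset.card_le_card ?_) hT
      intro i hi
      rw [Finset.mem_filter] at hi
      by_contra hcon
      have := hsmall i hcon
      omega
    · intro x hx
      obtain ⟨i, _, rfl⟩ := Multiset.mem_map.mp hx
      exact hm i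
    · obtain ⟨i, _⟩ := hex
      have := hm i
      omega
    · refine hs.trans (le_of_eq ?_)
      rw [Multiset.filter_map, Finset.sum]
      rfl
    · intro a b S hS
      obtain ⟨i, hi, rfl, hS1⟩ := (Multiset.map_eq_cons _ _ _ _).mpr hS
      obtain ⟨j, hj, rfl, hS2⟩ := (Multiset.map_eq_cons _ _ _ _).mpr hS1
      have hne : j ≠ i := by
        rintro rfl
        exact (Multiset.Nodup.notMem_erase (Finset.nodup Finset.univ)) hj
      have := hij i j hne.symm
      omega

/-- **Three arbitrary points, many small ones**, bound only for the three points. -/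
theorem threeSmall' (d h M : ℕ) (m : Fin h → ℕ) (T : Finset (Fin h)) (hT : T.card ≤ 3)
    (hm : ∀ i ∈ T, m i + (4 * M + 2) ≤ d) (hsmall : ∀ i, i ∉ T → m i ≤ 2 * M + 1)
    (hs : 234 * (M + 1) ^ 2 ≤ ∑ i with m i ≤ M, m i) :
    (∃ Q : MvPolynomial (Fin h × Fin 3) ℂ, Q ≠ 0 ∧ ∀ p : Fin h → Fin 3 → ℂ,
      eval (fun ij : Fin h × Fin 3 => p ij.1 ij.2) Q ≠ 0 →
      Module.finrank ℂ (sys d h m p) = (d + 2).choose 2 - ∑ k, (m k + 1).choose 2) ∨
    (∃ Q : MvPolynomial (Fin h × Fin 3) ℂ, Q ≠ 0 ∧ ∀ p : Fin h → Fin 3 → ℂ,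
      eval (fun ij : Fin h × Fin 3 => p ij.1 ij.2) Q ≠ 0 →
      ∃ l : MvPolynomial (Fin 3) ℂ, l.IsHomogeneous 1 ∧ l ≠ 0 ∧
        ∀ f ∈ sys d h m p, l ^ 2 ∣ f) := by
  classical
  by_cases hd : 6 * M + 3 ≤ d
  · apply threeSmall d h M m T hT _ hsmall hs
    intro i
    by_cases hi : i ∈ T
    · exact hm i hi
    · have := hsmall i hi
      omega
  · left
    push Not at hd
    apply generic_of_good
    obtain ⟨L, hL⟩ : ∃ L, L = (Finset.univ.val.map m : Multiset ℕ) := ⟨_, rfl⟩
    have hsum : ∑ i with m i ≤ M, m i = (L.filter (fun x => x ≤ M)).sum := by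
      rw [hL, Multiset.filter_map, Finset.sum]
      rfl
    rw [hsum] at hs
    have hg := goodGR (d := d) (M := M) (ms := L.filter (fun x => x ≤ M)) (R0 := 0) (Rb := 0)
      (fun x hx => (Multiset.mem_filter.mp hx).2) (fun x hx => absurd hx (Multiset.notMem_zero x))
      (fun x hx => absurd hx (Multiset.notMem_zero x))
      (fun x hx => absurd hx (Multiset.notMem_zero x)) (by
        refine le_trans ?_ hs
        exact Nat.mul_le_mul_right _ (by norm_num))
    rw [add_zero, add_zero] at hg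
    have h1 : (L.filter (fun x => x ≤ M)).sum ≤ cd (L.filter (fun x => x ≤ M)) := by
      have h2 : ∀ K : Multiset ℕ, K.sum ≤ cd K := by
        intro K
        induction K using Multiset.induction_on with
        | empty => simp [cd]
        | cons x K ih =>
          rw [Multiset.sum_cons, cd_cons]
          have := two_mul_kk x
          rcases Nat.eq_zero_or_pos x with h | h
          · subst h; omega
          · have : x ≤ x * x := Nat.le_mul_of_pos_left x h
            omega
      exact h2 _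
    have hcard := card_tri d
    have h3 : (tri d).card ≤ 234 * (M + 1) ^ 2 := by
      rw [hcard]
      have h4 : (d + 2).choose 2 ≤ (6 * M + 4).choose 2 := Nat.choose_le_choose 2 (by omega)
      have h5 : (6 * M + 4).choose 2 ≤ (6 * M + 4) ^ 2 := Nat.choose_le_pow _ _
      have h6 : (6 * M + 4) ^ 2 ≤ 234 * (M + 1) ^ 2 := by nlinarith
      exact h4.trans (h5.trans h6)
    rw [min_eq_left (by omega)] at hg
    have h7 := hg.add (L.filter (fun x => ¬ x ≤ M))
    rw [add_comm, Multiset.filter_add_not] at h7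
    have h8 : cd L = ∑ k, (m k + 1).choose 2 := by
      rw [hL]
      exact sumkk_eq m
    have h9 : (d + 2).choose 2 ≤ ∑ k, (m k + 1).choose 2 := by
      rw [← h8, ← hcard]
      have h10 : cd L = cd (L.filter (fun x => x ≤ M)) + cd (L.filter (fun x => ¬ x ≤ M)) := by
        rw [← cd_add, Multiset.filter_add_not]
      omega
    rw [min_eq_right h9, ← hL, ← hcard]
    exact h7

end Pool.Agent.helper1.EX
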